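import Pool.Agent.H39.IX.Targets
import Pool.Agent.H80.G2.Basic

/-!
# Row FCN: an algebra close to a factor is a factor
-/

set_option autoImplicit false

open scoped InnerProductSpace Topology
open Filter Finset Pool.Agent.H80.G2 Pool.Agent.H39.IX

namespace Pool.Agent.H17.IX

theorem pf_FCN (hSCD : T_SCD) : T_FCN := by
  intro H _ _ _ P Q ξ hTr hFac hC z hz hzc
  set D : Set (H →L[ℂ] H) := Set.range fun c : ℂ => c • (1 : H →L[ℂ] H) with hD
  have hDne : D.Nonempty := ⟨_, 0, rfl⟩
  have hDc : IsClosed D := by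
    have h1 : IsClosed ((Submodule.span ℂ {(1 : H →L[ℂ] H)} : Submodule ℂ (H →L[ℂ] H)) :
        Set (H →L[ℂ] H)) := Submodule.closed_of_finiteDimensional _
    have h2 : ((Submodule.span ℂ {(1 : H →L[ℂ] H)} : Submodule ℂ (H →L[ℂ] H)) :
        Set (H →L[ℂ] H)) = D := by
      ext x
      rw [SetLike.mem_coe, Submodule.mem_span_singleton]
      rfl
    rwa [h2] at h1
  rcases eq_or_lt_of_le (Metric.infDist_nonneg (x := z) (s := D)) with h0 | hm
  · obtain ⟨c, hc⟩ := (hDc.mem_iff_infDist_zero hDne).2 h0.symm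
    exact ⟨c, hc.symm⟩
  · exfalso
    set m := Metric.infDist z D with hmd
    obtain ⟨_, ⟨c, rfl⟩, hc⟩ := (Metric.infDist_lt_iff hDne).1 (show m < 2 * m by linarith)
    rw [dist_eq_norm] at hc
    set z1 := z - c • (1 : H →L[ℂ] H) with hz1
    have hz1Q : z1 ∈ Q := sub_mem hz (smul_mem' Q c (one_mem Q))
    have hz1c : ∀ y ∈ Q, z1 * y = y * z1 := by
      intro y hy
      rw [hz1, sub_mul, mul_sub, hzc y hy, smul_mul_assoc, mul_smul_comm, one_mul, mul_one]
    obtain ⟨a, haP, ha⟩ := hC.QP z1 hz1Q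
    have hr0 := norm_nonneg z1
    obtain ⟨c', hc'⟩ := hSCD H P ξ hTr hFac a haP (48 / 1000000 * ‖z1‖) (by
      intro u hu
      have hu1 : ‖u‖ ≤ 1 := norm_of_uni hu
      have hsu : ‖star u‖ ≤ 1 := by rw [norm_star]; exact hu1
      obtain ⟨y, hyQ, hy⟩ := hC.PQ u hu.1
      have hy' : ‖u - y‖ ≤ 20 / 1000000 := by nlinarith
      have e1 : u * a * star u - a = (u * a - a * u) * star u := by
        rw [sub_mul, mul_assoc a u, hu.2.2, mul_one]
      have e2 : u * a - a * u = (u - y) * z1 - z1 * (u - y) + (u * (a - z1) - (a - z1) * u) := by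
        have h := hz1c y hyQ
        have e3 : (u - y) * z1 - z1 * (u - y) + (u * (a - z1) - (a - z1) * u) =
            u * a - a * u + (z1 * y - y * z1) := by noncomm_ring
        rw [e3, h, sub_self, add_zero]
      have haz : ‖a - z1‖ ≤ 4 / 1000000 * ‖z1‖ := by
        rw [norm_sub_rev]
        exact ha
      have n1 : ‖(u - y) * z1‖ ≤ 20 / 1000000 * ‖z1‖ :=
        (norm_mul_le _ _).trans (mul_le_mul_of_nonneg_right hy' hr0)
      have n2 : ‖z1 * (u - y)‖ ≤ 20 / 1000000 * ‖z1‖ := by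
        refine (norm_mul_le _ _).trans ?_
        nlinarith
      have n3 : ‖u * (a - z1)‖ ≤ 4 / 1000000 * ‖z1‖ := by
        refine (norm_mul_le _ _).trans ?_
        have := norm_nonneg (a - z1)
        nlinarith [norm_nonneg u]
      have n4 : ‖(a - z1) * u‖ ≤ 4 / 1000000 * ‖z1‖ := by
        refine (norm_mul_le _ _).trans ?_
        have := norm_nonneg (a - z1)
        nlinarith [norm_nonneg u]
      have n5 : ‖u * a - a * u‖ ≤ 48 / 1000000 * ‖z1‖ := by
        rw [e2]
        refine (norm_add_le _ _).trans ?_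
        have m1 := norm_sub_le ((u - y) * z1) (z1 * (u - y))
        have m2 := norm_sub_le (u * (a - z1)) ((a - z1) * u)
        linarith
      rw [e1]
      refine (norm_mul_le _ _).trans ?_
      have := norm_nonneg (u * a - a * u)
      nlinarith [norm_nonneg (star u)])
    have h5 : ‖z1 - c' • (1 : H →L[ℂ] H)‖ ≤ 52 / 1000000 * ‖z1‖ := by
      have h6 : z1 - c' • (1 : H →L[ℂ] H) = (z1 - a) + (a - c' • (1 : H →L[ℂ] H)) := by abel
      rw [h6]
      refine (norm_add_le _ _).trans ?_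
      linarith
    have h7 : m ≤ ‖z1 - c' • (1 : H →L[ℂ] H)‖ := by
      have h8 : z1 - c' • (1 : H →L[ℂ] H) = z - (c + c') • (1 : H →L[ℂ] H) := by
        rw [hz1, add_smul]
        abel
      rw [h8, ← dist_eq_norm]
      exact Metric.infDist_le_dist_of_mem ⟨c + c', rfl⟩
    linarith

end Pool.Agent.H17.IX
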