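import Pool.Agent.H39.IX.Targets
import Pool.Agent.H80.G2.Basic

/-!
# Row IDX: facts on index 2 subfactors
-/

set_option autoImplicit false

open scoped InnerProductSpace Topology
open Filter Finset Pool.Agent.H80.G2 Pool.Agent.H39.IX

namespace Pool.Agent.H17.IX

section

variable {H : Type} [NormedAddCommGroup H] [InnerProductSpace ℂ H] [CompleteSpace H]
  {M P : VonNeumannAlgebra H} {w : H →L[ℂ] H} {ξ : ℕ → H}

theorem idx_ort (hM : IsTr M ξ) (hI : Idx M P w) {a z : H →L[ℂ] H} (ha : a ∈ P) (hz : z ∈ P) :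
    tr ξ (star a * (z * w)) = 0 ∧ tr ξ (star (z * w) * a) = 0 := by
  have h1 : tr ξ (star a * (z * w)) = 0 := by
    rw [← mul_assoc]
    exact hI.ort ξ hM _ (mul_mem (star_mem ha) hz)
  refine ⟨h1, ?_⟩
  have h2 : star (z * w) * a = star (star a * (z * w)) := by
    rw [star_mul (star a), star_star]
  rw [h2, tr_star, h1, map_zero]

theorem idx_sq (hM : IsTr M ξ) (hI : Idx M P w) : w * w ∈ P := by
  obtain ⟨y, hy, z, hz, he⟩ := hI.dec (w * w) (mul_mem hI.uni.1 hI.uni.1)
  have hzM := hI.sub z hz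
  have hzw : z * w ∈ M := mul_mem hzM hI.uni.1
  have h0 : z * w = 0 := by
    refine hM.faith _ hzw ?_
    have h1 : star (z * w) * (z * w) = star w * (star z * (w * w)) - star (z * w) * y := by
      have h2 : z * w = w * w - y := by rw [he]; abel
      nth_rewrite 2 [h2]
      rw [mul_sub, star_mul, mul_assoc]
    rw [h1, tr_sub hM.sum, (idx_ort hM hI hy hz).2, sub_zero]
    rw [hM.comm _ (star_mem hI.uni.1) _ (mul_mem (star_mem hzM) (mul_mem hI.uni.1 hI.uni.1))]
    have h3 : star z * (w * w) * star w = star z * w := by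
      rw [mul_assoc, mul_assoc w, hI.uni.2.2, mul_one]
    rw [h3]
    exact hI.ort ξ hM _ (star_mem hz)
  rw [he, h0, add_zero]
  exact hy

theorem idx_inv (hM : IsTr M ξ) (hI : Idx M P w) {x : H →L[ℂ] H} (hx : x ∈ P) :
    star w * x * w ∈ P := by
  have h1 := idx_sq hM hI
  have h2 : star w * x * w = star (w * w) * (w * x * star w) * (w * w) := by
    have h3 : star (w * w) * (w * x * star w) * (w * w) =
        star w * (star w * w) * x * (star w * w) * w := by
      rw [star_mul]
      noncomm_ring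
    rw [h3, hI.uni.2.1, mul_one, mul_one]
  rw [h2]
  exact mul_mem (mul_mem (star_mem h1) (hI.nor x hx)) h1

theorem idx_pyth (hM : IsTr M ξ) (hI : Idx M P w) {p q : H →L[ℂ] H} (hp : p ∈ P) (hq : q ∈ P) :
    n2 ξ (p + q * w) ^ 2 = n2 ξ p ^ 2 + n2 ξ (q * w) ^ 2 := by
  have h1 := tr_star_mul hM.sum (p + q * w)
  have h2 : star (p + q * w) * (p + q * w) = (star p * p + star p * (q * w)) +
      (star (q * w) * p + star (q * w) * (q * w)) := by
    rw [star_add, add_mul, mul_add, mul_add]
  obtain ⟨o1, o2⟩ := idx_ort hM hI hp hq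
  rw [h2, tr_add hM.sum, tr_add hM.sum, tr_add hM.sum, o1, o2, add_zero, zero_add,
    tr_star_mul hM.sum, tr_star_mul hM.sum] at h1
  exact_mod_cast h1.symm

end

theorem pf_IDX (hOPN : T_OPN) : T_IDX := by
  intro H _ _ _ M P w ξ hM hI
  have hP : IsTr P ξ := ⟨hM.one, fun x hx y hy => hM.comm x (hI.sub x hx) y (hI.sub y hy),
    fun x hx => hM.faith x (hI.sub x hx)⟩
  refine ⟨hP, idx_sq hM hI, fun x hx => idx_inv hM hI hx, fun a ha z hz => ?_,
    fun a ha z hz => idx_ort hM hI ha hz⟩
  have key : ∀ b ∈ P, n2 ξ (a * b) ≤ ‖a + z * w‖ * n2 ξ b ∧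
      n2 ξ (z * (w * b * star w) * w) ≤ ‖a + z * w‖ * n2 ξ b := by
    intro b hb
    have hq : z * (w * b * star w) ∈ P := mul_mem hz (hI.nor b hb)
    have h1 := idx_pyth hM hI (mul_mem ha hb) hq
    have h2 : a * b + z * (w * b * star w) * w = (a + z * w) * b := by
      have h3 : z * (w * b * star w) * w = z * (w * b) * (star w * w) := by noncomm_ring
      rw [h3, hI.uni.2.1, mul_one, add_mul]
      noncomm_ring
    rw [h2] at h1
    have h4 := n2_mul_le hM.sum (a + z * w) b
    have h5 := n2_nonneg ξ (a * b)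
    have h6 := n2_nonneg ξ (z * (w * b * star w) * w)
    have h7 := n2_nonneg ξ ((a + z * w) * b)
    constructor
    · refine le_trans ?_ h4
      exact (pow_le_pow_iff_left₀ h5 h7 two_ne_zero).1 (by nlinarith [sq_nonneg (n2 ξ (z * (w * b * star w) * w))])
    · refine le_trans ?_ h4
      exact (pow_le_pow_iff_left₀ h6 h7 two_ne_zero).1 (by nlinarith [sq_nonneg (n2 ξ (a * b))])
  constructor
  · exact hOPN H P ξ hP a ha _ fun b hb => (key b hb).1
  · refine hOPN H P ξ hP z hz _ fun b' hb' => ?_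
    have hb := idx_inv hM hI hb'
    have h1 := (key _ hb).2
    have h2 : w * (star w * b' * w) * star w = b' := by
      have h3 : w * (star w * b' * w) * star w = (w * star w) * b' * (w * star w) := by
        noncomm_ring
      rw [h3, hI.uni.2.2, one_mul, mul_one]
    rw [h2, n2_mul_uni hM hI.uni (hI.sub _ (mul_mem hz hb'))] at h1
    have h4 : n2 ξ (star w * b' * w) = n2 ξ b' := by
      have h5 := n2_conj hM hI.uni.star (hI.sub _ hb')
      rwa [star_star] at h5
    rwa [h4] at h1

end Pool.Agent.H17.IX
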